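import Mathlib
import Pool.Agent.R980.PathCover
import Pool.Agent.R980.Gnp

/-!
# The identity `f_k(G) = k(δ(G) - 1)` fails w.h.p. in `G(n,p)` for every fixed `k ≥ 2`
-/

set_option autoImplicit false

namespace Pool.Agent.Results.MP_e6ec33_pr.IdentityFails

open Finset Filter Topology
open scoped Classical
open Pool.Agent.R980

/-- The sizes `|F|` of the sets `F ⊆ E(G)` of edges for which `G - F` has path cover number `k`.
The least element of this set is `f_k(G)`. -/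
def deletionSizes {n : ℕ} (G : SimpleGraph (Fin n)) (k : ℕ) : Set ℕ :=
  {m : ℕ | ∃ F : Set (Sym2 (Fin n)),
    F ⊆ G.edgeSet ∧ F.ncard = m ∧ pathCoverNumber (G.deleteEdges F) = k}

/-- deterministic bound: one may isolate `k - 1` arbitrary vertices -/
theorem least_le {n : ℕ} (G : SimpleGraph (Fin n)) (k : ℕ) (hk : 1 ≤ k) (hkn : k ≤ n) (m : ℕ)
    (hm : IsLeast (deletionSizes G k) m) : m ≤ (k - 1) * G.maxDegree := by
  obtain ⟨⟨F0, hF0, hF0c, hF0k⟩, hmin⟩ := hm
  have h0 : pathCoverNumber G ≤ k := by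
    rw [← hF0k]
    exact pcn_mono (SimpleGraph.deleteEdges_le _)
  obtain ⟨S, -, hS⟩ := Finset.exists_subset_card_eq (s := (univ : Finset (Fin n))) (n := k - 1)
    (by rw [card_univ, Fintype.card_fin]; omega)
  set F : Finset (Sym2 (Fin n)) := S.biUnion (fun v => G.incidenceFinset v) with hF
  have hFc : F.card ≤ (k - 1) * G.maxDegree := by
    refine card_biUnion_le.trans ?_
    rw [← hS, ← smul_eq_mul]
    refine sum_le_card_nsmul _ _ _ ?_
    intro v _
    rw [SimpleGraph.card_incidenceFinset_eq_degree]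
    exact G.degree_le_maxDegree v
  have hFG : ∀ e ∈ F, e ∈ G.edgeSet := by
    intro e he
    rw [hF, mem_biUnion] at he
    obtain ⟨v, _, hv⟩ := he
    rw [SimpleGraph.mem_incidenceFinset] at hv
    exact hv.1
  have hiso : ∀ v ∈ S, ∀ w, ¬ (G.deleteEdges (F : Set (Sym2 (Fin n)))).Adj v w := by
    intro v hv w h
    rw [SimpleGraph.deleteEdges_adj] at h
    apply h.2
    rw [hF, mem_coe, mem_biUnion]
    refine ⟨v, hv, ?_⟩
    rw [SimpleGraph.mem_incidenceFinset]
    exact ⟨h.1, by simp⟩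
  have h1 : k ≤ pathCoverNumber (G.deleteEdges (F : Set (Sym2 (Fin n)))) := by
    have := pcn_isolated _ S hiso (by rw [Fintype.card_fin]; omega)
    omega
  obtain ⟨F', hF', hk'⟩ := pcn_exists G k h0 F h1
  have hmem : F'.card ∈ deletionSizes G k :=
    ⟨(F' : Set (Sym2 (Fin n))), fun e he => hFG e (hF' he), Set.ncard_coe_finset _, hk'⟩
  exact (hmin hmem).trans ((card_le_card hF').trans hFc)

/-- the numerical condition on the degrees -/
theorem degree_cond {n : ℕ} (hn : 1 ≤ n) (G : SimpleGraph (Fin n)) (k : ℕ) (hk : 2 ≤ k) (μ : ℝ)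
    (hμ : 2 * (k : ℝ) ≤ μ)
    (hG : ∀ v : Fin n, (G.degree v : ℝ) < (1 + 1 / (4 * (k : ℝ))) * μ ∧
      (1 - 1 / (4 * (k : ℝ))) * μ < (G.degree v : ℝ)) :
    (k - 1) * G.maxDegree < k * (G.minDegree - 1) := by
  have : Nonempty (Fin n) := ⟨⟨0, hn⟩⟩
  obtain ⟨v, hv⟩ := G.exists_maximal_degree_vertex
  obtain ⟨w, hw⟩ := G.exists_minimal_degree_vertex
  have hv1 := (hG v).1
  have hw1 := (hG w).2
  rw [← hv] at hv1
  rw [← hw] at hw1
  have hk0 : (2 : ℝ) ≤ (k : ℝ) := by exact_mod_cast hk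
  have hkp : (0 : ℝ) < (k : ℝ) := by linarith
  set ε : ℝ := 1 / (4 * (k : ℝ)) with hε
  have hεk : ε * k = 1 / 4 := by rw [hε]; field_simp
  have hε0 : 0 < ε := by rw [hε]; positivity
  have hε1 : ε ≤ 1 / 8 := by
    rw [hε, div_le_div_iff₀ (by positivity) (by norm_num)]
    linarith
  have hμ0 : 4 ≤ μ := by linarith
  have hd1 : 1 ≤ G.minDegree := by
    by_contra hlt
    have : G.minDegree = 0 := by omega
    rw [this] at hw1
    push_cast at hw1
    nlinarith
  have hreal : ((k : ℝ) - 1) * (G.maxDegree : ℝ) < (k : ℝ) * ((G.minDegree : ℝ) - 1) := by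
    have e1 : ((k : ℝ) - 1) * (G.maxDegree : ℝ) ≤ ((k : ℝ) - 1) * ((1 + ε) * μ) :=
      mul_le_mul_of_nonneg_left hv1.le (by linarith)
    have e2 : (k : ℝ) * ((1 - ε) * μ - 1) < (k : ℝ) * ((G.minDegree : ℝ) - 1) :=
      mul_lt_mul_of_pos_left (by linarith) hkp
    have e3 : ((k : ℝ) - 1) * ((1 + ε) * μ) ≤ (k : ℝ) * ((1 - ε) * μ - 1) := by
      have e4 : (k : ℝ) * ((1 - ε) * μ - 1) - ((k : ℝ) - 1) * ((1 + ε) * μ)
          = μ * (1 + ε - 2 * (ε * k)) - k := by ring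
      rw [hεk] at e4
      nlinarith
    linarith
  have hcast : (((k - 1) * G.maxDegree : ℕ) : ℝ) < ((k * (G.minDegree - 1) : ℕ) : ℝ) := by
    rw [Nat.cast_mul, Nat.cast_mul, Nat.cast_sub (by omega), Nat.cast_sub hd1]
    push_cast
    exact hreal
  exact_mod_cast hcast

/-- failure probability for one `n` -/
theorem prob_bound {n : ℕ} {p : ℝ} (h0 : 0 ≤ p) (h1 : p ≤ 1) (k : ℕ) (hk : 2 ≤ k) (hn : k + 3 ≤ n)
    (hp : 256 * (k : ℝ) ^ 2 * Real.log n ≤ n * p) :
    1 - 2 / (n : ℝ) ≤ gnp n p (fun G =>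
      (∀ m : ℕ, IsLeast (deletionSizes G k) m → m ≤ (k - 1) * G.maxDegree) ∧
        (k - 1) * G.maxDegree < k * (G.minDegree - 1)) := by
  set μ : ℝ := ((n : ℝ) - 1) * p with hμ
  have hk0 : (2 : ℝ) ≤ (k : ℝ) := by exact_mod_cast hk
  have hkp : (0 : ℝ) < (k : ℝ) := by linarith
  have hn3 : (3 : ℝ) ≤ (n : ℝ) := by
    have : 3 ≤ n := by omega
    exact_mod_cast this
  have hlog : 1 ≤ Real.log n := by
    rw [Real.le_log_iff_exp_le (by linarith)]
    exact (Real.exp_one_lt_d9.le.trans (by norm_num)).trans hn3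
  have hμ1 : 128 * (k : ℝ) ^ 2 * Real.log n ≤ μ := by
    have : (n : ℝ) * p ≤ 2 * μ := by
      rw [hμ]
      nlinarith
    linarith
  have hμ2 : 2 * (k : ℝ) ≤ μ := by
    refine le_trans ?_ hμ1
    have : (k : ℝ) ^ 2 * 1 ≤ (k : ℝ) ^ 2 * Real.log n :=
      mul_le_mul_of_nonneg_left hlog (by positivity)
    nlinarith
  set ε : ℝ := 1 / (4 * (k : ℝ)) with hε
  have hε0 : 0 < ε := by rw [hε]; positivity
  have hε1 : ε ≤ 1 := by
    rw [hε, div_le_one (by positivity)]
    linarith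
  have hbad := degrees_close h0 h1 (show 1 ≤ n by omega) hε0 hε1
  have hexp : (n : ℝ) * (2 * Real.exp (- (ε ^ 2 / 4) * (((n : ℝ) - 1) * p))) ≤ 2 / (n : ℝ) := by
    have e1 : - (ε ^ 2 / 4) * (((n : ℝ) - 1) * p) ≤ -(2 * Real.log n) := by
      rw [← hμ]
      have e2 : ε ^ 2 / 4 * (128 * (k : ℝ) ^ 2 * Real.log n) ≤ ε ^ 2 / 4 * μ :=
        mul_le_mul_of_nonneg_left hμ1 (by positivity)
      have e3 : ε ^ 2 / 4 * (128 * (k : ℝ) ^ 2 * Real.log n) = 2 * Real.log n := by
        rw [hε]; field_simp; norm_num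
      linarith
    have e2 : Real.exp (-(2 * Real.log n)) = 1 / (n : ℝ) ^ 2 := by
      rw [Real.exp_neg, two_mul, Real.exp_add, Real.exp_log (by linarith), ← sq, one_div]
    have e3 := Real.exp_le_exp.2 e1
    rw [e2] at e3
    have e4 : (n : ℝ) * (2 * (1 / (n : ℝ) ^ 2)) = 2 / (n : ℝ) := by
      have : (n : ℝ) ≠ 0 := by linarith
      field_simp
    rw [← e4]
    exact mul_le_mul_of_nonneg_left (mul_le_mul_of_nonneg_left e3 (by norm_num)) (by linarith)
  have hcompl := gnp_add_not (n := n) (p := p)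
    (fun G => ∃ v : Fin n, (1 + ε) * (((n : ℝ) - 1) * p) ≤ (G.degree v : ℝ) ∨
        (G.degree v : ℝ) ≤ (1 - ε) * (((n : ℝ) - 1) * p))
  have hmono : gnp n p (fun G => ¬ ∃ v : Fin n,
        (1 + ε) * (((n : ℝ) - 1) * p) ≤ (G.degree v : ℝ) ∨
        (G.degree v : ℝ) ≤ (1 - ε) * (((n : ℝ) - 1) * p)) ≤ gnp n p (fun G =>
      (∀ m : ℕ, IsLeast (deletionSizes G k) m → m ≤ (k - 1) * G.maxDegree) ∧
        (k - 1) * G.maxDegree < k * (G.minDegree - 1)) := by
    refine gnp_mono h0 h1 fun G hG => ⟨fun m hm => least_le G k (by omega) (by omega) m hm, ?_⟩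
    refine degree_cond (by omega) G k hk μ hμ2 fun v => ?_
    push Not at hG
    exact ⟨(hG v).1, (hG v).2⟩
  linarith

/-- For every fixed `k ≥ 2` there is a constant `C` such that for all `p = p(n)` with
`n p ≥ C log n` (for large `n`), `p` is above the Hamiltonicity threshold, and w.h.p. the graph
`G = G(n,p)` satisfies `f_k(G) ≤ (k - 1) Δ(G) < k (δ(G) - 1)`; in particular
`f_k(G) = k (δ(G) - 1)` has probability tending to `0`. -/
theorem result (k : ℕ) (hk : 2 ≤ k) : ∃ C : ℝ, 0 < C ∧ ∀ p : ℕ → ℝ,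
    (∀ n, 0 ≤ p n ∧ p n ≤ 1) → (∀ᶠ n : ℕ in atTop, C * Real.log n ≤ n * p n) →
    Tendsto (fun n : ℕ => (n : ℝ) * p n - Real.log n - Real.log (Real.log n)) atTop atTop ∧
    Tendsto (fun n : ℕ => gnp n (p n) (fun G =>
      (∀ m : ℕ, IsLeast (deletionSizes G k) m → m ≤ (k - 1) * G.maxDegree) ∧
        (k - 1) * G.maxDegree < k * (G.minDegree - 1))) atTop (𝓝 1) ∧
    Tendsto (fun n : ℕ => gnp n (p n) (fun G =>
      IsLeast (deletionSizes G k) (k * (G.minDegree - 1)))) atTop (𝓝 0) := by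
  have hk0 : (2 : ℝ) ≤ (k : ℝ) := by exact_mod_cast hk
  refine ⟨256 * (k : ℝ) ^ 2, by positivity, fun p hp01 hp => ?_⟩
  have hlim : Tendsto (fun n : ℕ => 1 - 2 / (n : ℝ)) atTop (𝓝 1) := by
    have : Tendsto (fun n : ℕ => 2 / (n : ℝ)) atTop (𝓝 0) :=
      tendsto_const_div_atTop_nhds_zero_nat 2
    simpa using this.const_sub 1
  have hgood : Tendsto (fun n : ℕ => gnp n (p n) (fun G =>
      (∀ m : ℕ, IsLeast (deletionSizes G k) m → m ≤ (k - 1) * G.maxDegree) ∧
        (k - 1) * G.maxDegree < k * (G.minDegree - 1))) atTop (𝓝 1) := by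
    refine tendsto_of_tendsto_of_tendsto_of_le_of_le' hlim tendsto_const_nhds ?_ ?_
    · filter_upwards [hp, eventually_ge_atTop (k + 3)] with n h1 h2
      exact prob_bound (hp01 n).1 (hp01 n).2 k hk h2 h1
    · exact Eventually.of_forall fun n => gnp_le_one (hp01 n).1 (hp01 n).2 _
  refine ⟨?_, hgood, ?_⟩
  · have hlogn : Tendsto (fun n : ℕ => Real.log n) atTop atTop :=
      Real.tendsto_log_atTop.comp tendsto_natCast_atTop_atTop
    refine tendsto_atTop_mono' _ ?_ hlogn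
    filter_upwards [hp, hlogn.eventually_ge_atTop 1] with n h1 h2
    have h3 : Real.log (Real.log n) ≤ Real.log n := by
      have := Real.log_le_sub_one_of_pos (show 0 < Real.log n by linarith)
      linarith
    have h4 : 3 * Real.log n ≤ 256 * (k : ℝ) ^ 2 * Real.log n := by
      refine mul_le_mul_of_nonneg_right ?_ (by linarith)
      nlinarith
    linarith
  · have h1 : ∀ n : ℕ, gnp n (p n) (fun G =>
        IsLeast (deletionSizes G k) (k * (G.minDegree - 1))) ≤ 1 - gnp n (p n) (fun G =>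
      (∀ m : ℕ, IsLeast (deletionSizes G k) m → m ≤ (k - 1) * G.maxDegree) ∧
        (k - 1) * G.maxDegree < k * (G.minDegree - 1)) := by
      intro n
      have h2 := gnp_add_not (n := n) (p := p n) (fun G =>
        (∀ m : ℕ, IsLeast (deletionSizes G k) m → m ≤ (k - 1) * G.maxDegree) ∧
        (k - 1) * G.maxDegree < k * (G.minDegree - 1))
      have h3 : gnp n (p n) (fun G => IsLeast (deletionSizes G k) (k * (G.minDegree - 1)))
          ≤ gnp n (p n) (fun G => ¬ ((∀ m : ℕ, IsLeast (deletionSizes G k) m →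
            m ≤ (k - 1) * G.maxDegree) ∧ (k - 1) * G.maxDegree < k * (G.minDegree - 1))) := by
        refine gnp_mono (hp01 n).1 (hp01 n).2 fun G hG hG' => ?_
        exact absurd (hG'.1 _ hG) (not_le.2 hG'.2)
      linarith
    have h4 : Tendsto (fun n : ℕ => 1 - gnp n (p n) (fun G =>
      (∀ m : ℕ, IsLeast (deletionSizes G k) m → m ≤ (k - 1) * G.maxDegree) ∧
        (k - 1) * G.maxDegree < k * (G.minDegree - 1))) atTop (𝓝 0) := by
      simpa using hgood.const_sub 1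
    exact squeeze_zero (fun n => gnp_nonneg (hp01 n).1 (hp01 n).2 _) h1 h4

end Pool.Agent.Results.MP_e6ec33_pr.IdentityFails
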